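import Pool.Agent.N600.L3.Stm

/-! Project L3 (helper600), subtask EIGT+DEG: eigenvalues. -/

set_option autoImplicit false

namespace Pool.Agent.N433.L3

open Pool.Agent.N600.L3

universe u

theorem t_eigt : S_EIGT.{u} := by
  intro A _ t z F hF0 hF p hp
  have key : ∀ (p : Polynomial ℤ) (y : A), F (Polynomial.aeval t p y) = Polynomial.aeval z p * F y := by
    intro p
    induction p using Polynomial.induction_on' with
    | add p q hp hq =>
      intro y
      rw [map_add, map_add, LinearMap.add_apply, map_add, hp, hq, add_mul]
    | monomial n a =>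
      intro y
      rw [Polynomial.aeval_monomial, Polynomial.aeval_monomial]
      have h1 : ∀ (n : ℕ) (y : A), F ((t ^ n) y) = z ^ n * F y := by
        intro n
        induction n with
        | zero => intro y; simp
        | succ n ih =>
          intro y
          rw [pow_succ, Module.End.mul_apply, ih, hF, pow_succ, mul_assoc]
      have h2 : ((algebraMap ℤ (Module.End ℤ A)) a * t ^ n) y = a • ((t ^ n) y) := by
        rw [Module.End.mul_apply, Module.algebraMap_end_apply]
      rw [h2, map_zsmul, h1, zsmul_eq_mul]
      simp [mul_assoc]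
  by_contra hne
  apply hF0
  ext y
  have h1 := key p y
  rw [hp, LinearMap.zero_apply, map_zero] at h1
  rcases mul_eq_zero.1 h1.symm with h | h
  · exact absurd h hne
  · simpa using h

theorem t_deg : S_DEG.{u} := by
  intro A _ _ t z h r hr
  set T : Submodule ℤ A := Submodule.torsion ℤ A with hT
  have htT : T ≤ T.comap t := by
    intro x hx
    rw [Submodule.mem_comap]
    obtain ⟨a, ha⟩ := (Submodule.mem_torsion_iff x).1 hx
    refine (Submodule.mem_torsion_iff (t x)).2 ⟨a, ?_⟩
    have h1 : (a : ℤ) • x = 0 := ha
    show (a : ℤ) • t x = 0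
    rw [← map_smul, h1, map_zero]
  have hfree : Module.Free ℤ (A ⧸ T) := inferInstance
  set t' : Module.End ℤ (A ⧸ T) := T.mapQ T t htT with ht'
  have hcomm : ∀ (p : Polynomial ℤ) (y : A),
      T.mkQ (Polynomial.aeval t p y) = Polynomial.aeval t' p (T.mkQ y) := by
    intro p
    induction p using Polynomial.induction_on' with
    | add p q hp hq =>
      intro y
      rw [map_add, map_add, LinearMap.add_apply, LinearMap.add_apply, map_add, hp, hq]
    | monomial n a =>
      intro y
      rw [Polynomial.aeval_monomial, Polynomial.aeval_monomial]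
      have h1 : ∀ (n : ℕ) (y : A), T.mkQ ((t ^ n) y) = (t' ^ n) (T.mkQ y) := by
        intro n
        induction n with
        | zero => intro y; simp
        | succ n ih =>
          intro y
          rw [pow_succ, Module.End.mul_apply, ih, pow_succ, Module.End.mul_apply]
          rfl
      rw [Module.End.mul_apply, Module.End.mul_apply, Module.algebraMap_end_apply,
        Module.algebraMap_end_apply, map_smul, h1]
  have hTt : Module.IsTorsion ℤ T := Submodule.torsion_isTorsion
  have : Finite T := Module.finite_of_fg_torsion T hTt
  set e : ℕ := Nat.card T with he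
  have he0 : e ≠ 0 := Nat.card_pos.ne'
  have hkill : ∀ x ∈ T, (e : ℤ) • x = 0 := by
    intro x hx
    have h1 : e • (⟨x, hx⟩ : T) = 0 := card_nsmul_eq_zero'
    have h2 := congrArg (Subtype.val) h1
    rw [natCast_zsmul]
    simpa using h2
  have hq0 : Polynomial.aeval t (Polynomial.C (e : ℤ) * t'.charpoly) = 0 := by
    ext y
    rw [map_mul, Polynomial.aeval_C, Module.End.mul_apply, Module.algebraMap_end_apply,
      LinearMap.zero_apply]
    apply hkill
    have h1 := hcomm t'.charpoly y
    rw [LinearMap.aeval_self_charpoly, LinearMap.zero_apply] at h1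
    exact (Submodule.Quotient.mk_eq_zero T).1 h1
  have hz := h _ hq0
  rw [map_mul, Polynomial.aeval_C, mul_eq_zero] at hz
  have hz1 : Polynomial.aeval z t'.charpoly = 0 := by
    rcases hz with hz | hz
    · exfalso
      apply he0
      have : ((e : ℤ) : ℂ) = 0 := by simpa using hz
      exact_mod_cast this
    · exact hz
  have hm : t'.charpoly.Monic := LinearMap.charpoly_monic t'
  have hint : IsIntegral ℤ z := ⟨t'.charpoly, hm, by simpa [Polynomial.aeval_def] using hz1⟩
  have hdvd : minpoly ℤ z ∣ t'.charpoly := minpoly.isIntegrallyClosed_dvd hint hz1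
  have h1 : (minpoly ℤ z).natDegree ≤ t'.charpoly.natDegree :=
    Polynomial.natDegree_le_of_dvd hdvd hm.ne_zero
  rw [LinearMap.charpoly_natDegree] at h1
  refine h1.trans ?_
  exact Module.finrank_le_of_rank_le ((rank_quotient_le T).trans hr)

end Pool.Agent.N433.L3
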